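import Pool.Agent.H.MP_929345_co.Ub.Cz

/-! The equality of the question for all bodies between a linear image of `K × [-1,1]^n` and the
same linear image of `P × [-1,1]^n`, where `K` is an `o`-symmetric plane convex body and `P` a
parallelogram of least area around `K`, with one absolute constant `ρ₀`.  The case `n = 0`,
`C = A⁻¹ K`, contains every `o`-symmetric plane convex body. -/

set_option autoImplicit false

namespace Pool.Agent.Results.MP_929345_co.Cylinders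

open Pool.Agent.H.MP_929345_co MeasureTheory

variable {d n : ℕ}

/-- The supremum of the upper densities of the totally separable translative packings of `C`. -/
noncomputable def dSep (C : Set (Fin d → ℝ)) : ENNReal :=
  ⨆ S ∈ {S : Set (Fin d → ℝ) | IsPacking C S ∧ TotSep C S}, dens C S

/-- The supremum of the upper densities of the `ρ`-separable translative packings of `C`. -/
noncomputable def dRho (ρ : ℝ) (C : Set (Fin d → ℝ)) : ENNReal :=
  ⨆ S ∈ {S : Set (Fin d → ℝ) | IsPacking C S ∧ RhoSep ρ C S}, dens C S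

/-- `P` is a parallelogram with centre `0`. -/
def IsParallelogram (P : Set (Fin 2 → ℝ)) : Prop :=
  ∃ a b : Fin 2 → ℝ, a 0 * b 1 - a 1 * b 0 ≠ 0 ∧
    P = {x | |a 0 * x 0 + a 1 * x 1| ≤ 1 ∧ |b 0 * x 0 + b 1 * x 1| ≤ 1}

/-- `P` has the least area among the parallelograms with centre `0` which contain `K`. -/
def LeastAround (K P : Set (Fin 2 → ℝ)) : Prop :=
  IsParallelogram P ∧ K ⊆ P ∧ ∀ Q, IsParallelogram Q → K ⊆ Q → volume P ≤ volume Q

/-- `A⁻¹ (K × [-1,1]^n)`. -/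
def Cyl (A : (Fin d → ℝ) ≃L[ℝ] (Fin 2 → ℝ) × (Fin n → ℝ)) (K : Set (Fin 2 → ℝ)) :
    Set (Fin d → ℝ) :=
  {x | (A x).1 ∈ K ∧ ∀ i, |(A x).2 i| ≤ 1}

theorem leastPg_iff (K P : Set (Fin 2 → ℝ)) : LeastAround K P ↔ Sw.LeastPg K P := by
  constructor
  · rintro ⟨h1, h2, h3⟩
    exact ⟨h1, h2, fun a b hab h => h3 _ ⟨a, b, hab, rfl⟩ h⟩
  · rintro ⟨h1, h2, h3⟩
    refine ⟨h1, h2, ?_⟩
    rintro Q ⟨a, b, hab, rfl⟩ h
    exact h3 a b hab h

/-- There is an absolute constant `ρ₀` such that for every `o`-symmetric convex body `K` in the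
plane, every linear isomorphism `A` of `ℝ^d` onto `ℝ² × ℝ^n`, every parallelogram `P` of least
area around `K` (there are such `P`) and every `o`-symmetric convex body `C` with
`A⁻¹ (K × [-1,1]^n) ⊆ C ⊆ A⁻¹ (P × [-1,1]^n)` the supremum of the upper densities of the
`ρ`-separable translative packings of `C` is, for all `ρ ≥ ρ₀`, the supremum of the upper
densities of the totally separable ones, namely `vol C / vol (A⁻¹ (P × [-1,1]^n))`. -/
theorem result : ∃ ρ₀ : ℝ, 1 ≤ ρ₀ ∧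
    ∀ (d n : ℕ) (K : Set (Fin 2 → ℝ)), IsBody K →
    ∀ A : (Fin d → ℝ) ≃L[ℝ] (Fin 2 → ℝ) × (Fin n → ℝ),
    (∃ P, LeastAround K P) ∧ ∀ P, LeastAround K P →
      ∀ C : Set (Fin d → ℝ), IsBody C → Cyl A K ⊆ C → C ⊆ Cyl A P →
        dSep C = volume C / volume (Cyl A P) ∧ ∀ ρ : ℝ, ρ₀ ≤ ρ → dRho ρ C = dSep C := by
  obtain ⟨ρ₀, h1, h2⟩ := Ub.sandwich_u
  refine ⟨ρ₀, h1, fun d n K hK A => ?_⟩
  obtain ⟨P, hP⟩ := Sw.exists_least hK
  refine ⟨⟨P, (leastPg_iff K P).2 hP⟩, fun P hP C hC hKC hCP => ?_⟩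
  obtain ⟨h3, h4⟩ := h2 d n A K hK P ((leastPg_iff K P).1 hP) C hC hKC hCP
  exact ⟨h3, fun ρ hρ => (h4 ρ hρ).trans h3.symm⟩

end Pool.Agent.Results.MP_929345_co.Cylinders
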