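import Pool.Agent.H.MP_929345_co.Ub.Lu

/-! The equality of the question within layered packings, for every `o`-symmetric convex body in
every dimension `d = n + 2`, with one absolute constant `ρ₀`. -/

set_option autoImplicit false

namespace Pool.Agent.Results.MP_929345_co.LayeredPackings

open Pool.Agent.H.MP_929345_co

/-- Layered families: any two members lie in the same layer, or in layers at distance at
least `2` for one of the functionals `u i`. -/
def Layered {d n : ℕ} (u : Fin n → ((Fin d → ℝ) →L[ℝ] ℝ)) (S : Set (Fin d → ℝ)) : Prop :=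
  ∀ x ∈ S, ∀ y ∈ S, (∀ i, u i x = u i y) ∨ ∃ i, 2 ≤ |u i x - u i y|

/-- A lattice of full rank: the preimage of the integer vectors under a linear automorphism. -/
def IsLattice {d : ℕ} (S : Set (Fin d → ℝ)) : Prop :=
  ∃ B : (Fin d → ℝ) ≃L[ℝ] (Fin d → ℝ), S = {x | ∀ i, ∃ m : ℤ, B x i = m}

/-- There is an absolute constant `ρ₀` such that for every `o`-symmetric convex body `C` in
dimension `d = n + 2`, all linearly independent linear functionals `u 0, ..., u (n-1)` with
`|u i| ≤ 1` on `C` and all `ρ ≥ ρ₀` the suprema of the upper densities of the layered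
`ρ`-separable packings of `C`, of the layered totally separable ones and of the layered totally
separable lattice packings are equal. -/
theorem result : ∃ ρ₀ : ℝ, 1 ≤ ρ₀ ∧
    ∀ (n : ℕ) (C : Set (Fin (n + 2) → ℝ)), IsBody C →
    ∀ u : Fin n → ((Fin (n + 2) → ℝ) →L[ℝ] ℝ), LinearIndependent ℝ u →
    (∀ i, ∀ x ∈ C, |u i x| ≤ 1) → ∀ ρ : ℝ, ρ₀ ≤ ρ →
      (⨆ S ∈ {S : Set (Fin (n + 2) → ℝ) | IsPacking C S ∧ Layered u S ∧ RhoSep ρ C S},
          dens C S) =
        (⨆ S ∈ {S : Set (Fin (n + 2) → ℝ) | IsPacking C S ∧ Layered u S ∧ TotSep C S},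
          dens C S) ∧
      (⨆ S ∈ {S : Set (Fin (n + 2) → ℝ) | IsPacking C S ∧ Layered u S ∧ TotSep C S},
          dens C S) =
        (⨆ S ∈ {S : Set (Fin (n + 2) → ℝ) |
          IsPacking C S ∧ Layered u S ∧ TotSep C S ∧ IsLattice S}, dens C S) := by
  obtain ⟨ρ₀, h1, h2⟩ := Ub.layered_u
  exact ⟨ρ₀, h1, fun n C hC u hu huC ρ hρ => h2 n C hC u hu huC ρ hρ⟩

end Pool.Agent.Results.MP_929345_co.LayeredPackings
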