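import Pool.Agent.H.MP_929345_co.Un.Main

/-! The densities of rho-separable translative packings converge to the density of totally
separable translative packings, in every dimension, uniformly for all o-symmetric convex
bodies. -/

set_option autoImplicit false

namespace Pool.Agent.Results.MP_929345_co.LimitDensity

open Pool.Agent.H.MP_929345_co

variable {d : ℕ}

/-- The supremum of the upper densities of the totally separable translative packings of `C`. -/
noncomputable def dSep (C : Set (Fin d → ℝ)) : ENNReal :=
  ⨆ S ∈ {S : Set (Fin d → ℝ) | IsPacking C S ∧ TotSep C S}, dens C S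

/-- The supremum of the upper densities of the `ρ`-separable translative packings of `C`. -/
noncomputable def dRho (ρ : ℝ) (C : Set (Fin d → ℝ)) : ENNReal :=
  ⨆ S ∈ {S : Set (Fin d → ℝ) | IsPacking C S ∧ RhoSep ρ C S}, dens C S

/-- For every dimension `d` and every `ε > 0` there is one `ρ₀` such that for every `o`-symmetric
convex body `C` in `ℝ^d` and all `ρ ≥ ρ₀` the supremum of the upper densities of the
`ρ`-separable translative packings of `C` exceeds the supremum of the upper densities of the
totally separable ones by at most `ε`. -/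
theorem result (d : ℕ) (ε : ℝ) (hε : 0 < ε) :
    ∃ ρ₀ : ℝ, 1 ≤ ρ₀ ∧ ∀ C : Set (Fin d → ℝ), IsBody C → ∀ ρ : ℝ, ρ₀ ≤ ρ →
      dSep C ≤ dRho ρ C ∧ dRho ρ C ≤ dSep C + ENNReal.ofReal ε := by
  obtain ⟨ρ₀, h1, h2⟩ := Un.uniform d hε
  exact ⟨ρ₀, h1, fun C hC ρ hρ => ⟨Un.dS_le_dR ρ C, h2 C hC ρ hρ⟩⟩

end Pool.Agent.Results.MP_929345_co.LimitDensity
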