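import Pool.Agent.H.MP_929345_co.Up.Equal

/-! Periodic rho-separable translative packings are totally separable for large rho, in every
dimension, with one bound for all o-symmetric convex bodies. -/

set_option autoImplicit false

namespace Pool.Agent.Results.MP_929345_co.PeriodicPackings

open Pool.Agent.H.MP_929345_co

/-- For every `d`, every `k` and every `δ > 0` there is one `ρ₀` such that for all `ρ ≥ ρ₀` and
every `o`-symmetric convex body `C` in `ℝ^d` a packing of translates of `C` which is a union of at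
most `k` translates of a full-rank lattice and has upper density at least `δ` is `ρ`-separable if
and only if it is totally separable; moreover the suprema of the upper densities of the totally
separable and of the `ρ`-separable packings of this kind are equal. -/
theorem result (d k : ℕ) (δ : ℝ) (hδ : 0 < δ) :
    ∃ ρ₀ : ℝ, 1 ≤ ρ₀ ∧ ∀ ρ : ℝ, ρ₀ ≤ ρ → ∀ C : Set (Fin d → ℝ), IsBody C →
      (∀ S : Set (Fin d → ℝ), IsPeriodic k S → IsPacking C S → ENNReal.ofReal δ ≤ dens C S →
        (RhoSep ρ C S ↔ TotSep C S)) ∧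
      (⨆ S ∈ {S : Set (Fin d → ℝ) | IsPeriodic k S ∧ IsPacking C S ∧ TotSep C S}, dens C S) =
      ⨆ S ∈ {S : Set (Fin d → ℝ) | IsPeriodic k S ∧ IsPacking C S ∧ RhoSep ρ C S}, dens C S := by
  obtain ⟨ρ₁, h1, hmain⟩ := Up.structural d k δ hδ
  obtain ⟨ρ₂, h2, heq⟩ := Up.periodic_equality d k
  refine ⟨max ρ₁ ρ₂, le_trans h1 (le_max_left _ _), fun ρ hρ C hC =>
    ⟨fun S hS hp hd => ⟨fun hr => ?_, fun ht => ht.rhoSep ρ⟩, ?_⟩⟩
  · exact hmain ρ (le_trans (le_max_left _ _) hρ) C hC S hS hp hr hd
  · exact heq ρ (le_trans (le_max_right _ _) hρ) C hC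

end Pool.Agent.Results.MP_929345_co.PeriodicPackings
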